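import Pool.Agent.W779.Morrey.Scale
import Pool.Agent.W779.Morrey.Iso
import Pool.Agent.Helper188.Morrey.Basic

/-!
# Project TQ (helper555): rank-one convexity implies quasiconvexity on triangular `2 × 2` matrices

Let `H` be a hyperplane `{F : ⟨α, F β⟩ = c}` of the space of real `2 × 2` matrices.  Every function which
is rank-one convex on `H` can be approximated by quasiconvex functions, uniformly on bounded subsets of
`H`.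
-/

set_option autoImplicit false

namespace Pool.Agent.N555.TQ

open MeasureTheory Set Filter Topology
open Pool.Agent.W779.Morrey (V E HeatCert)

abbrev M2 := Matrix (Fin 2) (Fin 2) ℝ

/-- quasiconvexity -/
def Quasiconvex (W : M2 → ℝ) : Prop :=
  ∀ F₀ : M2, ∀ Ω : Set (Fin 2 → ℝ), IsOpen Ω → Bornology.IsBounded Ω →
    ∀ ϑ : (Fin 2 → ℝ) → (Fin 2 → ℝ), (∃ K, LipschitzWith K ϑ) → (∀ x, x ∉ Ω → ϑ x = 0) →
      W F₀ * (volume Ω).toReal ≤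
        ∫ x in Ω, W (F₀ + LinearMap.toMatrix'
          ((fderiv ℝ ϑ x : (Fin 2 → ℝ) →L[ℝ] (Fin 2 → ℝ)) :
            (Fin 2 → ℝ) →ₗ[ℝ] (Fin 2 → ℝ)))

/-- TQ-LIN: linear changes of variables in the domain and in the target. -/
def S_LIN : Prop := ∀ W : M2 → ℝ, Continuous W → Quasiconvex W → ∀ A B : M2, A.det ≠ 0 →
  B.det ≠ 0 → Quasiconvex (fun F => W (A * F * B))

/-- the function is convex in the first two and in the last two variables -/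
def RT (φ : ℝ → ℝ → ℝ → ℝ) : Prop :=
  (∀ r, ConvexOn ℝ univ (fun v : ℝ × ℝ => φ v.1 v.2 r)) ∧
  ∀ p, ConvexOn ℝ univ (fun v : ℝ × ℝ => φ p v.1 v.2)

/-- the regular functions -/
structure Rg (g : ℝ × ℝ × ℝ → ℝ) (M δ : ℝ) : Prop where
  hδ : 0 < δ
  hM : 0 ≤ M
  c2 : ContDiff ℝ 2 g
  bd : ∀ v, ‖fderiv ℝ (fderiv ℝ g) v‖ ≤ M
  l1 : ∀ v a b, δ * (a ^ 2 + b ^ 2) ≤ fderiv ℝ (fderiv ℝ g) v (a, b, 0) (a, b, 0)
  l2 : ∀ v b c, δ * (b ^ 2 + c ^ 2) ≤ fderiv ℝ (fderiv ℝ g) v (0, b, c) (0, b, c)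

/-- TQ-REG: truncation and mollification. -/
def S_REG : Prop := ∀ φ : ℝ → ℝ → ℝ → ℝ, RT φ → ∀ R ε : ℝ, 0 < ε →
  ∃ (g : ℝ × ℝ × ℝ → ℝ) (M δ : ℝ), Rg g M δ ∧
    ∀ p q r : ℝ, |p| ≤ R → |q| ≤ R → |r| ≤ R → |g (p, q, r) - φ p q r| ≤ ε

/-- TQ-ALG: the certificate of the heat flow. -/
def S_ALG : Prop := ∀ (g : ℝ × ℝ × ℝ → ℝ) (M δ : ℝ), Rg g M δ → ∃ a C : ℝ, 0 < a ∧ 0 ≤ C ∧
  ∀ c : ℝ, HeatCert (fun F : E => g (a * F 0 0, F 0 1, F 1 1) + C * (a * F 1 0 - c) ^ 2) (fun _ => 0)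

end Pool.Agent.N555.TQ
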